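import Pool.Agent.H80.S6C.Cls
import Pool.Agent.H64.KS6.WfeA

/-!
# Class half of the plateaus: law and time

On a large event of a family of the class, and on all large subevents of it, the time is full given
the line.
-/

set_option autoImplicit false

namespace Pool.DPC

open Finset Real
open Pool.Agent.H49.Ent Pool.Agent.H32.Dense Pool.STK Pool.KA Pool.KSAT Pool.K2S Pool.PB Pool.KS6
  Pool.S6C

/-- **Law and time** on the event of a family of the class and on its large subevents. `X` is any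
scale which is at least `x J`. -/
theorem tim_clp {S : PCl 3} {a₁ R : ℝ}
    (hSt : ∀ (τ : ℝ) (J : ℕ) (F : Fam 3 J) (A : F.Ω → Prop), S.St τ J F A → Fam.Stt F a₁ R τ A)
    {lm x ϖ : ℝ} (hlm : 0 < lm) (hx : 0 < x) (hϖ : 0 < ϖ) :
    Clp S (fun J F A => 0 < Pe F.p A ∧ IsLaw (Pool.Agent.H49.Ent.cond F.p A True) ∧
      ∀ X : ℕ, x * J ≤ X →
      (J : ℝ) * Real.log 2 - lm * X ≤
        CH (Pool.Agent.H49.Ent.cond F.p A True) F.T (fun ω => (F.l ω, F.Z ω)) ∧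
      ∀ E : F.Ω → Prop, ϖ * Pe F.p A ≤ Pe F.p E →
        IsLaw (Pool.Agent.H49.Ent.cond F.p E True) ∧
        (J : ℝ) * Real.log 2 - lm * X ≤
          CH (Pool.Agent.H49.Ent.cond F.p E True) F.T (fun ω => (F.l ω, F.Z ω))) := by
  obtain ⟨η, hη⟩ : ∃ η, η = lm * x := ⟨_, rfl⟩
  have hη0 : 0 < η := by rw [hη]; positivity
  obtain ⟨J₁, hJ₁⟩ := exists_nat_ge (|Real.log ϖ| / (η / 7))
  refine Clp.of (τ := η / 7) (by positivity) J₁ fun J hJ F A hS => ?_
  obtain ⟨c1, c2, c3, c4⟩ := hSt _ J F A hS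
  have hp := F.isLaw
  have hJ0 : (0 : ℝ) ≤ J := Nat.cast_nonneg J
  have hA0 : 0 < Pe F.p A := lt_of_lt_of_le (Real.exp_pos _) c4
  have hlog : |Real.log ϖ| ≤ η / 7 * J := by
    have h1 : |Real.log ϖ| / (η / 7) ≤ J := hJ₁.trans (by exact_mod_cast hJ)
    rw [div_le_iff₀ (by positivity)] at h1
    linarith
  have key : ∀ E : F.Ω → Prop, Real.exp (-(2 * (η / 7) * J)) ≤ Pe F.p E →
      IsLaw (Pool.Agent.H49.Ent.cond F.p E True) ∧ ∀ X : ℕ, x * J ≤ X →
      (J : ℝ) * Real.log 2 - lm * X ≤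
        CH (Pool.Agent.H49.Ent.cond F.p E True) F.T (fun ω => (F.l ω, F.Z ω)) := by
    intro E hE
    have hE0 : 0 < Pe F.p E := lt_of_lt_of_le (Real.exp_pos _) hE
    have hl := isLaw_cond hp hE0
    refine ⟨hl, fun X hX => ?_⟩
    have h1 := Pool.S6K.Wfe.res_Tm (F := F) (τ := η / 7) (c := 2 * (η / 7)) (by positivity)
      (by positivity) c1 c2.1 c3 hE hl
    unfold Fam.Tm at h1
    have e : (5 * (η / 7) + 2 * (η / 7)) * (J : ℝ) = η * J := by ring
    rw [e, hη] at h1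
    refine le_trans ?_ h1
    have h2 : lm * (x * J) ≤ lm * X := mul_le_mul_of_nonneg_left hX hlm.le
    have h3 : lm * x * (J : ℝ) = lm * (x * J) := by ring
    rw [h3]
    linarith
  have hτJ : 0 ≤ η / 7 * (J : ℝ) := by positivity
  have hA1 : Real.exp (-(2 * (η / 7) * J)) ≤ Pe F.p A := by
    refine le_trans (Real.exp_le_exp.2 ?_) c4
    linarith
  refine ⟨hA0, isLaw_cond hp hA0, fun X hX => ⟨(key A hA1).2 X hX, fun E hE => ?_⟩⟩
  have hE1 : Real.exp (-(2 * (η / 7) * J)) ≤ Pe F.p E := by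
    have e1 : Real.exp (-(η / 7 * J)) ≤ ϖ := by
      rw [← Real.exp_log hϖ]
      refine Real.exp_le_exp.2 ?_
      have := neg_abs_le (Real.log ϖ)
      linarith
    calc Real.exp (-(2 * (η / 7) * J)) = Real.exp (-(η / 7 * J)) * Real.exp (-(η / 7 * J)) := by
          rw [← Real.exp_add]
          congr 1
          ring
      _ ≤ ϖ * Pe F.p A := mul_le_mul e1 c4 (Real.exp_pos _).le hϖ.le
      _ ≤ _ := hE
  exact ⟨(key E hE1).1, (key E hE1).2 X hX⟩

/-- The same for a class with numbers. -/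
theorem cs_tim {S : PCl 3} {a R h₁ : ℝ} {i₀ : Fin 3} {c s₂ : ℝ} {r : ℝ → ℝ} {D : Set ℝ}
    {σ : ℝ → Row} (hC : Cs S a R h₁ i₀ c s₂ r D σ) {lm x ϖ : ℝ} (hlm : 0 < lm) (hx : 0 < x)
    (hϖ : 0 < ϖ) : Clp S (fun J F A => 0 < Pe F.p A ∧
      IsLaw (Pool.Agent.H49.Ent.cond F.p A True) ∧ ∀ X : ℕ, x * J ≤ X →
      (J : ℝ) * Real.log 2 - lm * X ≤
        CH (Pool.Agent.H49.Ent.cond F.p A True) F.T (fun ω => (F.l ω, F.Z ω)) ∧
      ∀ E : F.Ω → Prop, ϖ * Pe F.p A ≤ Pe F.p E →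
        IsLaw (Pool.Agent.H49.Ent.cond F.p E True) ∧
        (J : ℝ) * Real.log 2 - lm * X ≤
          CH (Pool.Agent.H49.Ent.cond F.p E True) F.T (fun ω => (F.l ω, F.Z ω))) :=
  tim_clp (fun τ J F A h => hC.st τ J F A h) hlm hx hϖ

end Pool.DPC
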